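import Mathlib
import Pool.Agent.Q200.SpecGeom
import Pool.Agent.Q200.PolyFace
import Pool.Agent.Q200.CubicCert

/-!
# A spectral polytope with trivial symmetry group

Let `F` be a certain cubic graph on 18 vertices without non-trivial automorphisms. The
eigenpolytope of the complement `G` of the line graph of `F` for the eigenvalue `1` (the polar
dual of the fractional perfect matching polytope of `F`) has edge-graph `G`; it is a spectral
polytope with 27 vertices whose symmetry group is trivial.
-/

namespace Pool.Agent.Results.MP_c2491a_co.TrivialSymmetry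

open Q200.CubicCert

/-- The vertices (0-dimensional faces) of `P`. -/
def vertices {d : ℕ} (P : Set (Fin d → ℝ)) : Set (Fin d → ℝ) := {x | x ∈ P ∧ IsExposed ℝ P {x}}

/-- `P` is a polytope: the convex hull of finitely many points. -/
def IsPolytope {d : ℕ} (P : Set (Fin d → ℝ)) : Prop :=
  ∃ S : Set (Fin d → ℝ), S.Finite ∧ P = convexHull ℝ S

/-- The edge-graph: two distinct vertices are adjacent when the segment between them is a
face. -/
def edgeGraph {d : ℕ} (P : Set (Fin d → ℝ)) : SimpleGraph (vertices P) where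
  Adj x y := x ≠ y ∧ IsExposed ℝ P (segment ℝ (x : Fin d → ℝ) y)
  symm := by
    constructor
    intro x y h
    exact ⟨h.1.symm, by rw [segment_symm]; exact h.2⟩
  loopless := ⟨fun x h => h.1 rfl⟩

open Classical in
/-- The adjacency matrix of `G` as a linear map on real functions. -/
noncomputable def adjOp {n : ℕ} (G : SimpleGraph (Fin n)) : Module.End ℝ (Fin n → ℝ) :=
  (G.adjMatrix ℝ).mulVecLin

/-- `P` is spectral: for a labelling `p_1, ..., p_n` of its vertices there is an eigenvalue `θ` of
the edge-graph such that the columns of the matrix `M_P` with rows `p_1, ..., p_n` form a basis of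
the `θ`-eigenspace. -/
def IsSpectral {d : ℕ} (P : Set (Fin d → ℝ)) : Prop :=
  ∃ (n : ℕ) (lab : Fin n ≃ vertices P) (θ : ℝ),
    Module.End.HasEigenvalue (adjOp ((edgeGraph P).comap lab)) θ ∧
    LinearIndependent ℝ (fun (j : Fin d) (i : Fin n) => (lab i : Fin d → ℝ) j) ∧
    Submodule.span ℝ (Set.range fun (j : Fin d) (i : Fin n) => (lab i : Fin d → ℝ) j) =
      Module.End.eigenspace (adjOp ((edgeGraph P).comap lab)) θ

/-- The graph with the adjacency table of the certificate. -/
def G : SimpleGraph (Fin 27) where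
  Adj i j := adjB i j = true
  symm := by
    constructor
    intro i j h
    rw [adjB_symm]; exact h
  loopless := ⟨fun i h => by
    rw [adjB_irrefl] at h
    exact absurd h (by decide)⟩

theorem mem_eig (u : Fin 27 → ℝ) :
    u ∈ Module.End.eigenspace (adjOp G) 1 ↔ ∀ k, opR u k = 1 * u k := by
  rw [Module.End.mem_eigenspace_iff]
  unfold adjOp
  rw [Matrix.mulVecLin_apply, funext_iff]
  refine forall_congr' fun k => ?_
  classical
  have h : opR u k = (G.adjMatrix ℝ).mulVec u k := by
    unfold opR Matrix.mulVec dotProduct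
    refine Finset.sum_congr rfl fun j _ => ?_
    simp only [SimpleGraph.adjMatrix_apply]
    by_cases hj : adjB k j = true
    · have : G.Adj k j := hj
      simp [hj, this]
    · have : ¬ G.Adj k j := hj
      simp [hj, this]
  rw [h]
  exact Iff.rfl

/-- The eigenspace. -/
noncomputable abbrev Eg : Submodule ℝ (Fin 27 → ℝ) := Module.End.eigenspace (adjOp G) 1

/-- The dimension of the eigenspace. -/
noncomputable abbrev dd : ℕ := Module.finrank ℝ Eg

/-- The matrix of a basis of the eigenspace. -/
noncomputable def Phi (i : Fin 27) (j : Fin dd) : ℝ := (Module.finBasis ℝ Eg j : Fin 27 → ℝ) i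

/-- The polytope. -/
noncomputable def P : Set (Fin dd → ℝ) := convexHull ℝ (Set.range Phi)

theorem indep : LinearIndependent ℝ (fun (j : Fin dd) (i : Fin 27) => Phi i j) :=
  (Module.finBasis ℝ Eg).linearIndependent.map' Eg.subtype (by simp)

theorem hspan : Submodule.span ℝ (Set.range fun (j : Fin dd) (i : Fin 27) => Phi i j) = Eg := by
  have h := (Module.finBasis ℝ Eg).span_eq
  have h2 : (Submodule.span ℝ (Set.range (Module.finBasis ℝ Eg))).map Eg.subtype
      = Submodule.map Eg.subtype ⊤ := by rw [h]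
  rw [Submodule.map_span, Submodule.map_top, Submodule.range_subtype] at h2
  refine Eq.trans ?_ h2
  congr 1
  ext x
  simp only [Set.mem_range, Set.mem_image, exists_exists_eq_and]
  rfl

theorem hvert (k : Fin 27) : ∃ u ∈ Eg, ∀ l, l ≠ k → u l < u k := by
  obtain ⟨u, hu, hlt⟩ := vertex_fun k
  exact ⟨u, (mem_eig u).2 hu, hlt⟩

theorem Phi_inj : Function.Injective Phi :=
  Q200.SpecGeom.injective_of_vertices Phi Eg hspan hvert

theorem Phi_exposed (i : Fin 27) : IsExposed ℝ P {Phi i} :=
  Q200.SpecGeom.vertex_exposed Phi Eg hspan i (hvert i)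

theorem Phi_mem (i : Fin 27) : Phi i ∈ vertices P :=
  ⟨subset_convexHull ℝ _ ⟨i, rfl⟩, Phi_exposed i⟩

theorem vertices_eq : vertices P = Set.range Phi := by
  ext x
  constructor
  · rintro ⟨hx, hexp⟩
    obtain ⟨-, k, hk⟩ := Q200.Poly.face_eq Phi {x} hexp ⟨x, rfl⟩
    exact ⟨k, hk⟩
  · rintro ⟨i, rfl⟩
    exact Phi_mem i

/-- The labelling of the vertices. -/
noncomputable def lab : Fin 27 ≃ vertices P :=
  Equiv.ofBijective (fun i => ⟨Phi i, Phi_mem i⟩) ⟨fun i j h => Phi_inj (congrArg Subtype.val h),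
    fun x => by
      obtain ⟨x, hx⟩ := x
      have hx' := hx
      rw [vertices_eq] at hx'
      obtain ⟨i, hi⟩ := hx'
      exact ⟨i, Subtype.ext hi⟩⟩

theorem lab_apply (i : Fin 27) : (lab i : Fin dd → ℝ) = Phi i := rfl

theorem adj_iff (i j : Fin 27) : (edgeGraph P).Adj (lab i) (lab j) ↔ adjB i j = true := by
  constructor
  · rintro ⟨hne, hexp⟩
    by_contra hadj
    have hadj : adjB i j = false := by simpa using hadj
    have hij : i ≠ j := fun h => hne (by rw [h])
    obtain ⟨f, g, h1, h2, h3, h4, hrel⟩ := non_rel i j hij hadj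
    refine Q200.SpecGeom.not_edge Phi Eg hspan i j hvert ?_ hexp
    refine ⟨fun k => (if k = f then 1 / 2 else 0) + (if k = g then 1 / 2 else 0), ?_, ?_, ?_, ?_,
      ?_⟩
    · intro k
      dsimp only
      split_ifs <;> norm_num
    · simp [h1.symm, h3.symm]
    · simp [h2.symm, h4.symm]
    · rw [Finset.sum_add_distrib]
      simp
      norm_num
    · intro u hu
      have := hrel u ((mem_eig u).1 hu)
      simp only [add_mul, ite_mul, zero_mul, Finset.sum_add_distrib, Finset.sum_ite_eq',
        Finset.mem_univ, if_true]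
      linarith
  · intro h
    have hne : i ≠ j := by
      rintro rfl
      rw [adjB_irrefl] at h
      exact absurd h (by decide)
    refine ⟨fun h => hne (lab.injective h), ?_⟩
    obtain ⟨u, hu, hij, hlt⟩ := edge_fun i j h
    exact Q200.SpecGeom.edge_exposed Phi Eg hspan i j ⟨u, (mem_eig u).2 hu, hij, hlt⟩

theorem comap_eq : (edgeGraph P).comap lab = G := by
  ext i j
  exact adj_iff i j

theorem hasEig : Module.End.HasEigenvalue (adjOp G) 1 := by
  obtain ⟨u, hu, hlt⟩ := vertex_fun 0
  apply Module.End.hasEigenvalue_of_hasEigenvector (x := u)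
  refine ⟨(mem_eig u).2 hu, ?_⟩
  intro h
  have := hlt 1 (by decide)
  rw [h] at this
  exact lt_irrefl _ this

theorem spectral : IsSpectral P := by
  refine ⟨27, lab, 1, ?_, ?_, ?_⟩
  · rw [comap_eq]; exact hasEig
  · exact indep
  · rw [comap_eq]; exact hspan

/-- A functional vanishing on all rows is zero. -/
theorem row_zero (c : Fin dd → ℝ) (h : ∀ i, ∑ j, c j * Phi i j = 0) : c = 0 := by
  have h1 := Fintype.linearIndependent_iff.1 indep c (by
    funext i
    simpa [Finset.sum_apply] using h i)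
  funext j
  exact h1 j

/-- A linear map that vanishes on all rows is zero. -/
theorem map_zero_of_rows (D : (Fin dd → ℝ) →ₗ[ℝ] (Fin dd → ℝ)) (h : ∀ i, D (Phi i) = 0) :
    D = 0 := by
  have hx : ∀ x : Fin dd → ℝ, ∀ k, D x k = ∑ j, D (Pi.single j 1) k * x j := by
    intro x k
    have h1 : x = ∑ j, x j • (Pi.single j (1 : ℝ) : Fin dd → ℝ) := by
      funext m
      simp [Finset.sum_apply, Pi.single_apply]
    conv_lhs => rw [h1]
    rw [map_sum, Finset.sum_apply]
    refine Finset.sum_congr rfl fun j _ => ?_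
    rw [map_smul, Pi.smul_apply, smul_eq_mul, mul_comm]
  have hc : ∀ k, (fun j => D (Pi.single j 1) k) = 0 := by
    intro k
    apply row_zero
    intro i
    rw [← hx, h i]; rfl
  ext x k
  simpa using congrFun (hc k) x

theorem span_rows : Submodule.span ℝ (Set.range Phi) = ⊤ := by
  by_contra hne
  obtain ⟨f, hf, hfs⟩ := Submodule.exists_le_ker_of_lt_top _ (lt_top_iff_ne_top.2 hne)
  apply hf
  have h1 : ∀ i, f (Phi i) = 0 := fun i =>
    LinearMap.mem_ker.1 (hfs (Submodule.subset_span ⟨i, rfl⟩))
  have hx : ∀ x : Fin dd → ℝ, f x = ∑ j, f (Pi.single j 1) * x j := by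
    intro x
    have h1 : x = ∑ j, x j • (Pi.single j (1 : ℝ) : Fin dd → ℝ) := by
      funext m
      simp [Finset.sum_apply, Pi.single_apply]
    conv_lhs => rw [h1]
    rw [map_sum]
    refine Finset.sum_congr rfl fun j _ => ?_
    rw [map_smul, smul_eq_mul, mul_comm]
  have hc : (fun j => f (Pi.single j 1)) = 0 := by
    apply row_zero
    intro i
    rw [← hx, h1]
  ext j
  simpa using congrFun hc j

theorem sum_rows : ∑ i, Phi i = 0 := by
  funext c
  have h1 : (fun i => Phi i c) ∈ Eg := by
    rw [← hspan]; exact Submodule.subset_span ⟨c, rfl⟩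
  have h2 := (mem_eig _).1 h1
  have h3 := star_sum (fun i => Phi i c)
  rw [Finset.sum_eq_zero fun v _ => star_of_eig h2 v] at h3
  rw [Finset.sum_apply]
  simp only [Pi.zero_apply]
  linarith

theorem zero_mem : (0 : Fin dd → ℝ) ∈ P := by
  have hc : Convex ℝ P := convex_convexHull ℝ _
  have h1 : ∑ i : Fin 27, (1 / 27 : ℝ) • Phi i ∈ P := by
    refine hc.sum_mem (fun _ _ => by norm_num) ?_ (fun i _ => (Phi_mem i).1)
    simp
  rw [← Finset.smul_sum, sum_rows, smul_zero] at h1
  exact h1

theorem full : affineSpan ℝ P = ⊤ := by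
  have h0 : (0 : Fin dd → ℝ) ∈ affineSpan ℝ P := subset_affineSpan ℝ _ zero_mem
  have hdir : (affineSpan ℝ P).direction = ⊤ := by
    rw [eq_top_iff, ← span_rows, Submodule.span_le]
    rintro _ ⟨i, rfl⟩
    have h1 : Phi i ∈ affineSpan ℝ P := subset_affineSpan ℝ _ (Phi_mem i).1
    have h2 := AffineSubspace.vsub_mem_direction h1 h0
    simpa using h2
  rw [AffineSubspace.direction_eq_top_iff_of_nonempty ⟨0, h0⟩] at hdir
  exact hdir

/-- The symmetry group is trivial. -/
theorem trivial_sym (T : (Fin dd → ℝ) ≃ₗ[ℝ] (Fin dd → ℝ)) (hT : T '' P = P) :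
    T = LinearEquiv.refl ℝ _ := by
  have hv : ∀ x, x ∈ vertices P → T x ∈ vertices P := by
    rintro x ⟨hx, hexp⟩
    have h1 := (Q200.Poly.exposed_image_iff T P {x}).2 hexp
    rw [hT, Set.image_singleton] at h1
    refine ⟨?_, h1⟩
    rw [← hT]; exact ⟨x, hx, rfl⟩
  have hf : ∀ i, ∃ j, T (Phi i) = Phi j := by
    intro i
    have := hv _ (Phi_mem i)
    rw [vertices_eq] at this
    obtain ⟨j, hj⟩ := this
    exact ⟨j, hj.symm⟩
  choose f hf using hf
  have hinj : Function.Injective f := by
    intro i j hij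
    apply Phi_inj
    apply T.injective
    rw [hf, hf, hij]
  let σ : Fin 27 ≃ Fin 27 := Equiv.ofBijective f ⟨hinj, Finite.surjective_of_injective hinj⟩
  have hσ : ∀ i, σ i = f i := fun i => rfl
  have hadj : ∀ i j, adjB (σ i) (σ j) = adjB i j := by
    intro i j
    rw [Bool.eq_iff_iff, ← adj_iff, ← adj_iff]
    have hseg : (T : (Fin dd → ℝ) → (Fin dd → ℝ)) '' segment ℝ (Phi i) (Phi j)
        = segment ℝ (Phi (f i)) (Phi (f j)) := by
      rw [← convexHull_pair, ← convexHull_pair, ← hf, ← hf,
        ← Set.image_pair (T : (Fin dd → ℝ) → (Fin dd → ℝ)) (Phi i) (Phi j)]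
      exact LinearMap.image_convexHull T.toLinearMap _
    have hexp := Q200.Poly.exposed_image_iff T P (segment ℝ (Phi i) (Phi j))
    rw [hT, hseg] at hexp
    constructor
    · rintro ⟨h1, h2⟩
      exact ⟨fun h => h1 (by rw [lab.injective h]), hexp.1 h2⟩
    · rintro ⟨h1, h2⟩
      exact ⟨fun h => h1 (by rw [σ.injective (lab.injective h)]), hexp.2 h2⟩
  have hid : ∀ i, T (Phi i) = Phi i := by
    intro i
    have := rigid σ hadj i
    rw [hf]
    rw [hσ] at this
    rw [this]
  have h0 := map_zero_of_rows (T.toLinearMap - LinearMap.id) (fun i => by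
    simp [hid i])
  ext x k
  have h1 := congrArg (fun D : (Fin dd → ℝ) →ₗ[ℝ] (Fin dd → ℝ) => D x k) h0
  have h2 : T x k - x k = 0 := h1
  show T x k = x k
  linarith

/-- **There is a spectral polytope whose symmetry group is trivial.** It is full-dimensional and
has 27 vertices. -/
theorem result : ∃ (d : ℕ) (P : Set (Fin d → ℝ)), IsPolytope P ∧ affineSpan ℝ P = ⊤ ∧
    Nat.card (vertices P) = 27 ∧ IsSpectral P ∧
    ∀ T : (Fin d → ℝ) ≃ₗ[ℝ] (Fin d → ℝ), T '' P = P → T = LinearEquiv.refl ℝ (Fin d → ℝ) :=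
  ⟨dd, P, ⟨Set.range Phi, Set.finite_range _, rfl⟩, full,
    by rw [← Nat.card_congr lab]; simp, spectral, trivial_sym⟩

end Pool.Agent.Results.MP_c2491a_co.TrivialSymmetry
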